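import Pool.Agent.H927.MG.SGoals

/-!
# MP_2eb777_ag, part spc: the special curve is isomorphic to the general one over a field
-/

set_option autoImplicit false

open AlgebraicGeometry CategoryTheory Limits Polynomial

open scoped LaurentPolynomial

open LaurentPolynomial (T invert T_add T_zero involutive_invert invert_T invert_C)

namespace Pool.Agent.H671.MG927

open Pool.Agent.W523 Pool.Agent.H927.MG

/-- the twist followed by a scaling of `W₁` -/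
def tws {A : Type} [CommRing A] (χ : A →+* A) (hχ : (RingHom.id A).comp (RingHom.id A) = χ)
    (d d' : Dat A) (a b θ θ' : A) (hθ : θ * θ' = 1) (hn : a ^ 2 - d.l * d.m * b ^ 2 = 1)
    (hl : d'.l = d.l) (hm : d'.m = θ ^ 2 * d.m)
    (hV : d.V = d'.V * (a ^ 2 + d.l * d.m * b ^ 2) + 2 * a * b * (d.l * d.m) * (θ * d'.T))
    (hT : d.T = (θ * d'.T) * (a ^ 2 + d.l * d.m * b ^ 2) + 2 * a * b * d'.V) : Mor χ d d' :=
  ((Mor.twist ⟨d.l, d.m, d'.V, θ * d'.T⟩ a b hn).copy (e := d)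
      (e' := ⟨d.l, d.m, d'.V, θ * d'.T⟩) (Dat.ext rfl rfl hV hT) rfl).comp
    (Mor.diag (d := ⟨d.l, d.m, d'.V, θ * d'.T⟩) (d' := d') 1 1 θ'
      (by simp only [RingHom.id_apply]; rw [hl]; ring)
      (by simp only [RingHom.id_apply]; rw [hm]; linear_combination (d.m * (θ * θ' + 1)) * hθ)
      (by simp only [RingHom.id_apply]; ring)
      (by simp only [RingHom.id_apply]; rw [hl]; linear_combination (-(d.l * d'.T)) * hθ)
      (by simp only [RingHom.id_apply]; rw [hm]; linear_combination (θ * d.m * d'.T) * hθ)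
      (by simp only [RingHom.id_apply]; rw [hl, hm]; linear_combination (d.l * d.m * d'.T * θ) * hθ)
      (by simp only [RingHom.id_apply]; rw [hl, hm]; ring))
    hχ

section

variable {A : Type} [CommRing A] {χ : A →+* A} {hχ : (RingHom.id A).comp (RingHom.id A) = χ}
  {d d' : Dat A} {a b θ θ' : A} {hθ : θ * θ' = 1} {hn : a ^ 2 - d.l * d.m * b ^ 2 = 1}
  {hl : d'.l = d.l} {hm : d'.m = θ ^ 2 * d.m}
  {hV : d.V = d'.V * (a ^ 2 + d.l * d.m * b ^ 2) + 2 * a * b * (d.l * d.m) * (θ * d'.T)}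
  {hT : d.T = (θ * d'.T) * (a ^ 2 + d.l * d.m * b ^ 2) + 2 * a * b * d'.V}

lemma tws_c : (tws χ hχ d d' a b θ θ' hθ hn hl hm hV hT).c = 1 := by
  change (1 : A) * 1 = 1
  ring

lemma tws_x : (tws χ hχ d d' a b θ θ' hθ hn hl hm hV hT).x = a := by
  change a * 1 + (b * d.l) * 0 = a
  ring

lemma tws_y : (tws χ hχ d d' a b θ θ' hθ hn hl hm hV hT).y = b * d.l * θ' := by
  change a * 0 + (b * d.l) * θ' = _
  ring

lemma tws_z : (tws χ hχ d d' a b θ θ' hθ hn hl hm hV hT).z = b * d.m := by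
  change (b * d.m) * 1 + a * 0 = _
  ring

lemma tws_t : (tws χ hχ d d' a b θ θ' hθ hn hl hm hV hT).t = a * θ' := by
  change (b * d.m) * 0 + a * θ' = _
  ring

end

lemma scl_one {R : Type} [CommRing R] : (scl (1 : Rˣ)) = RingHom.id R[X] := by
  apply Polynomial.ringHom_ext
  · intro r; simp
  · simp

lemma sclL_one {R : Type} [CommRing R] (p : R[T;T⁻¹]) : sclL (1 : Rˣ) p = p := by
  have h1 : uT (1 : Rˣ) = ⟨T 1, T (-1), by rw [← T_add]; norm_num, by rw [← T_add]; norm_num⟩ := by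
    apply Units.ext
    simp [uT]
  induction p using LaurentPolynomial.induction_on' with
  | add p q hp hq => rw [map_add, hp, hq]
  | C_mul_T n c =>
    rw [map_mul, sclL_C]
    congr 1
    have h2 : ∀ m : ℕ, sclL (1 : Rˣ) (T (m : ℤ) : R[T;T⁻¹]) = T (m : ℤ) := by
      intro m
      have h3 : (T (m : ℤ) : R[T;T⁻¹]) = T 1 ^ m := by rw [LaurentPolynomial.T_pow, mul_one]
      rw [h3, map_pow, sclL_T1]
      simp
    have h4 : ∀ m : ℕ, sclL (1 : Rˣ) (T (-(m : ℤ)) : R[T;T⁻¹]) = T (-(m : ℤ)) := by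
      intro m
      have h3 : (T (-(m : ℤ)) : R[T;T⁻¹]) = T (-1) ^ m := by
        rw [LaurentPolynomial.T_pow]; simp
      rw [h3, map_pow, sclL_Tm1]
      simp
    obtain ⟨m, rfl | rfl⟩ := n.eq_nat_or_neg
    · exact h2 m
    · exact h4 m

lemma dV {R : Type} [CommRing R] (V0 V1 V2 V3 : R) :
    inv R (toLaurent (C V3 + C V2 * X + C V1 * X ^ 2 + C V0 * X ^ 3 : R[X])) =
      T (-3) * toLaurent (C V0 + C V1 * X + C V2 * X ^ 2 + C V3 * X ^ 3 : R[X]) := by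
  simp only [map_add, map_mul, map_pow, toLaurent_C, toLaurent_X, inv_apply, invert_C, invert_T]
  have h : (T (-1) : R[T;T⁻¹]) * T 1 = 1 := by rw [← T_add]; norm_num
  have h3 : (T (-3) : R[T;T⁻¹]) = T (-1) ^ 3 := by rw [LaurentPolynomial.T_pow]; norm_num
  rw [h3]
  generalize (T (-1) : R[T;T⁻¹]) = a at *
  generalize (T 1 : R[T;T⁻¹]) = b at *
  have h2 : a ^ 2 * b ^ 2 = 1 := by rw [← mul_pow, h, one_pow]
  have h3 : a ^ 3 * b ^ 3 = 1 := by rw [← mul_pow, h, one_pow]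
  linear_combination (-(LaurentPolynomial.C V1 * a ^ 2)) * h -
    (LaurentPolynomial.C V2 * a) * h2 - LaurentPolynomial.C V3 * h3

lemma dT {R : Type} [CommRing R] (T0 T1 T2 : R) :
    inv R (toLaurent (C T2 + C T1 * X + C T0 * X ^ 2 : R[X])) =
      T (-2) * toLaurent (C T0 + C T1 * X + C T2 * X ^ 2 : R[X]) := by
  simp only [map_add, map_mul, map_pow, toLaurent_C, toLaurent_X, inv_apply, invert_C, invert_T]
  have h : (T (-1) : R[T;T⁻¹]) * T 1 = 1 := by rw [← T_add]; norm_num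
  have h3 : (T (-2) : R[T;T⁻¹]) = T (-1) ^ 2 := by rw [LaurentPolynomial.T_pow]; norm_num
  rw [h3]
  generalize (T (-1) : R[T;T⁻¹]) = a at *
  generalize (T 1 : R[T;T⁻¹]) = b at *
  have h2 : a ^ 2 * b ^ 2 = 1 := by rw [← mul_pow, h, one_pow]
  linear_combination (-(LaurentPolynomial.C T1 * a)) * h - LaurentPolynomial.C T2 * h2

lemma mapf {A B : Type} [CommRing A] [CommRing B] (φ : A →+* B) (V a b M P : A) :
    φ (V * (a ^ 2 + M * b ^ 2) + 2 * a * b * M * P) =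
      φ V * (φ a ^ 2 + φ M * φ b ^ 2) + 2 * φ a * φ b * φ M * φ P := by
  have h2 : φ 2 = 2 := map_ofNat φ 2
  simp only [map_add, map_mul, map_pow, h2]

lemma mapg {A B : Type} [CommRing A] [CommRing B] (φ : A →+* B) (V a b M P : A) :
    φ (P * (a ^ 2 + M * b ^ 2) + 2 * a * b * V) =
      φ P * (φ a ^ 2 + φ M * φ b ^ 2) + 2 * φ a * φ b * φ V := by
  have h2 : φ 2 = 2 := map_ofNat φ 2
  simp only [map_add, map_mul, map_pow, h2]

section

variable {K : Type} [CommRing K] {ξ₁ ξ₂ μ s i : K} {V T₁ V₂ T₂ : K[X]}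
    {hμ : ξ₁ + ξ₂ = 2 * μ} {hs : ξ₁ * ξ₂ = s ^ 2} {hi : (μ + s) * i = 1}
    {hV2 : inv K (toLaurent V₂) = T (-3) * (toLaurent V * (sA μ s i ^ 2 + slm ξ₁ ξ₂ * sB s i ^ 2) +
      2 * sA μ s i * sB s i * slm ξ₁ ξ₂ * toLaurent T₁)}
    {hT2 : inv K (toLaurent T₂) = T (-2) * (toLaurent T₁ * (sA μ s i ^ 2 + slm ξ₁ ξ₂ * sB s i ^ 2) +
      2 * sA μ s i * sB s i * toLaurent V)}

lemma sgd_c : (sgd ξ₁ ξ₂ μ s i V T₁ V₂ T₂ hμ hs hi hV2 hT2).g.c = T (-3) := by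
  change (T (-3) : K[T;T⁻¹]) * 1 = _
  ring

lemma sgd_x : (sgd ξ₁ ξ₂ μ s i V T₁ V₂ T₂ hμ hs hi hV2 hT2).g.x = T (-2) * sA μ s i := by
  change (T (-2) : K[T;T⁻¹]) * sA μ s i + 0 * (sB s i * toLaurent (X - C ξ₂)) = _
  ring

lemma sgd_y : (sgd ξ₁ ξ₂ μ s i V T₁ V₂ T₂ hμ hs hi hV2 hT2).g.y =
    T (-2) * sB s i * toLaurent (X - C ξ₁) := by
  change (T (-2) : K[T;T⁻¹]) * (sB s i * toLaurent (X - C ξ₁)) + 0 * sA μ s i = _
  ring

lemma sgd_z : (sgd ξ₁ ξ₂ μ s i V T₁ V₂ T₂ hμ hs hi hV2 hT2).g.z =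
    T (-2) * sB s i * toLaurent (X - C ξ₂) := by
  change (0 : K[T;T⁻¹]) * sA μ s i + T (-2) * (sB s i * toLaurent (X - C ξ₂)) = _
  ring

lemma sgd_t : (sgd ξ₁ ξ₂ μ s i V T₁ V₂ T₂ hμ hs hi hV2 hT2).g.t = T (-2) * sA μ s i := by
  change (0 : K[T;T⁻¹]) * (sB s i * toLaurent (X - C ξ₁)) + T (-2) * sA μ s i = _
  ring

end

/-- the criterion for special data -/
theorem giso_of {K : Type} [CommRing K] (ξ₁ ξ₂ μ s i ε ε' θ θ' : K) (V T₁ V₂ T₂ : K[X])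
    (hμ : ξ₁ + ξ₂ = 2 * μ) (hs : ξ₁ * ξ₂ = s ^ 2) (hi : (μ + s) * i = 1)
    (hV2 : inv K (toLaurent V₂) = T (-3) * (toLaurent V * (sA μ s i ^ 2 + slm ξ₁ ξ₂ * sB s i ^ 2) +
      2 * sA μ s i * sB s i * slm ξ₁ ξ₂ * toLaurent T₁))
    (hT2 : inv K (toLaurent T₂) = T (-2) * (toLaurent T₁ * (sA μ s i ^ 2 + slm ξ₁ ξ₂ * sB s i ^ 2) +
      2 * sA μ s i * sB s i * toLaurent V))
    (l0 m0 m1 V0 V1 V2 V3 T0 T1 T2' : K)
    (hε : ε * ε' = 1) (hθ : θ * θ' = 1) (hε2 : ε ^ 2 = μ ^ 2 - s ^ 2)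
    (hl0 : l0 = -ξ₁) (hm1 : m1 = θ ^ 2) (hm0 : m0 = -(θ ^ 2 * ξ₂))
    (hV : V = (C V0 + C V1 * X + C V2 * X ^ 2 + C V3 * X ^ 3) *
        ((C ε' * (X - C μ)) ^ 2 + (X - C ξ₁) * (X - C ξ₂) * (-C ε') ^ 2) +
        2 * (C ε' * (X - C μ)) * (-C ε') * ((X - C ξ₁) * (X - C ξ₂)) *
          (C θ * (C T0 + C T1 * X + C T2' * X ^ 2)))
    (hT : T₁ = (C θ * (C T0 + C T1 * X + C T2' * X ^ 2)) *
        ((C ε' * (X - C μ)) ^ 2 + (X - C ξ₁) * (X - C ξ₂) * (-C ε') ^ 2) +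
        2 * (C ε' * (X - C μ)) * (-C ε') * (C V0 + C V1 * X + C V2 * X ^ 2 + C V3 * X ^ 3)) :
    GIso (sgd ξ₁ ξ₂ μ s i V T₁ V₂ T₂ hμ hs hi hV2 hT2)
      (hgd l0 1 m0 m1 V0 V1 V2 V3 T0 T1 T2') := by
  -- relations in `K[X]`
  have cμ : (C ξ₁ : K[X]) + C ξ₂ = 2 * C μ := by
    have h2 : (C (2 : K) : K[X]) = 2 := map_ofNat C 2
    rw [← map_add, hμ, map_mul, h2]
  have cs : (C ξ₁ : K[X]) * C ξ₂ = C s ^ 2 := by rw [← map_mul, hs, map_pow]
  have ci : (C μ + C s) * (C i : K[X]) = 1 := by rw [← map_add, ← map_mul, hi, map_one]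
  have cε : (C ε : K[X]) * C ε' = 1 := by rw [← map_mul, hε, map_one]
  have cθ : (C θ : K[X]) * C θ' = 1 := by rw [← map_mul, hθ, map_one]
  have cε2 : (C ε : K[X]) ^ 2 = C μ ^ 2 - C s ^ 2 := by
    rw [← map_pow, hε2, map_sub, map_pow, map_pow]
  have cm0 : (C m0 : K[X]) = -(C θ ^ 2 * C ξ₂) := by rw [hm0]; simp
  have cm1 : (C m1 : K[X]) = C θ ^ 2 := by rw [hm1]; simp
  have cl0 : (C l0 : K[X]) = -C ξ₁ := by rw [hl0]; simp
  -- relations in the Laurent polynomials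
  have lμ := congrArg (toLaurent : K[X] → K[T;T⁻¹]) cμ
  have ls := congrArg (toLaurent : K[X] → K[T;T⁻¹]) cs
  have li := congrArg (toLaurent : K[X] → K[T;T⁻¹]) ci
  have lε := congrArg (toLaurent : K[X] → K[T;T⁻¹]) cε
  have lε2 := congrArg (toLaurent : K[X] → K[T;T⁻¹]) cε2
  have l2 : (toLaurent (2 : K[X]) : K[T;T⁻¹]) = 2 := map_ofNat toLaurent 2
  simp only [map_add, map_mul, map_pow, map_sub, map_one, toLaurent_C, l2] at lμ ls li lε lε2
  have hxy : (T 1 : K[T;T⁻¹]) * T (-1) = 1 := by rw [← T_add]; norm_num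
  have h3 : (T (-3) : K[T;T⁻¹]) = T (-1) ^ 3 := by rw [LaurentPolynomial.T_pow]; norm_num
  have h2 : (T (-2) : K[T;T⁻¹]) = T (-1) ^ 2 := by rw [LaurentPolynomial.T_pow]; norm_num
  -- the two identities
  have I1 : sA μ s i * (LaurentPolynomial.C ε' * (T 1 - LaurentPolynomial.C μ)) +
      sB s i * (-LaurentPolynomial.C ε') * slm ξ₁ ξ₂ =
      LaurentPolynomial.C ε' * (LaurentPolynomial.C ε ^ 2 * sB s i +
        LaurentPolynomial.C s * (1 - LaurentPolynomial.C μ * T (-1))) := by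
    simp only [sA, slm]
    generalize sB s i = q at *
    generalize (T 1 : K[T;T⁻¹]) = x at *
    generalize (T (-1) : K[T;T⁻¹]) = y at *
    generalize (LaurentPolynomial.C ξ₁ : K[T;T⁻¹]) = a at *
    generalize (LaurentPolynomial.C ξ₂ : K[T;T⁻¹]) = b at *
    generalize (LaurentPolynomial.C μ : K[T;T⁻¹]) = m at *
    generalize (LaurentPolynomial.C s : K[T;T⁻¹]) = s at *
    generalize (LaurentPolynomial.C ε : K[T;T⁻¹]) = e at *
    generalize (LaurentPolynomial.C ε' : K[T;T⁻¹]) = e' at *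
    linear_combination (q * e' * x) * lμ - (q * e') * ls + (s * e') * hxy - (e' * q) * lε2
  have I2 : sA μ s i * (-LaurentPolynomial.C ε') +
      sB s i * (LaurentPolynomial.C ε' * (T 1 - LaurentPolynomial.C μ)) =
      -(LaurentPolynomial.C s * LaurentPolynomial.C ε') * T (-1) := by
    simp only [sA]
    ring
  -- the components of the second twist
  have N2 : (C ε' * (C ε ^ 2 * ((C s * X + 1) * C i) + C s * (1 - C μ * X))) ^ 2 -
      (1 - C ξ₁ * X) * (1 - C ξ₂ * X) * (-(C s * C ε')) ^ 2 = (1 : K[X]) := by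
    generalize (C ξ₁ : K[X]) = a at *
    generalize (C ξ₂ : K[X]) = b at *
    generalize (C μ : K[X]) = m at *
    generalize (C s : K[X]) = s at *
    generalize (C ε : K[X]) = e at *
    generalize (C ε' : K[X]) = e' at *
    generalize (C i : K[X]) = j at *
    -- `A² - s² (1 - a X) (1 - b X) = e²`
    have h1 : (e ^ 2 * ((s * X + 1) * j) + s * (1 - m * X)) ^ 2 -
        (1 - a * X) * (1 - b * X) * s ^ 2 = e ^ 2 := by
      have h5 : e ^ 2 * j = m - s := by linear_combination j * cε2 + (m - s) * ci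
      have h6 : b = 2 * m - a := by linear_combination cμ
      have h7 : s ^ 2 = a * (2 * m - a) := by rw [← h6]; exact cs.symm
      have h8 : (e ^ 2 * ((s * X + 1) * j) + s * (1 - m * X)) = (m - s) * (s * X + 1) + s * (1 - m * X) := by
        linear_combination (s * X + 1) * h5
      rw [h8, cε2]
      linear_combination (s ^ 2 * X) * cμ - (s ^ 2 * X ^ 2) * cs
    linear_combination (e' ^ 2) * h1 + (e * e' + 1) * cε
  have N1 : (C ε' * (X - C μ)) ^ 2 - (X - C ξ₁) * (X - C ξ₂) * (-C ε') ^ 2 = (1 : K[X]) := by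
    linear_combination (C ε' ^ 2 * X) * cμ - (C ε' ^ 2) * cs - (C ε' ^ 2) * cε2 +
      (C ε * C ε' + 1) * cε
  -- Laurent forms
  have lV := congrArg (toLaurent : K[X] → K[T;T⁻¹]) hV
  have lT := congrArg (toLaurent : K[X] → K[T;T⁻¹]) hT
  have hPV := dV V0 V1 V2 V3
  have hPT := dT T0 T1 T2'
  have hlm : inv K (toLaurent ((1 - C ξ₁ * X) * (1 - C ξ₂ * X) : K[X])) = T (-1) ^ 2 * slm ξ₁ ξ₂ := by
    simp only [map_mul, map_sub, map_one, toLaurent_C, toLaurent_X, inv_apply, invert_C, invert_T, slm]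
    generalize (T 1 : K[T;T⁻¹]) = x at *
    generalize (T (-1) : K[T;T⁻¹]) = y at *
    linear_combination (-(y * x) + LaurentPolynomial.C ξ₁ * y + LaurentPolynomial.C ξ₂ * y - 1) * hxy
  have hα : inv K (toLaurent (C ε' * (C ε ^ 2 * ((C s * X + 1) * C i) + C s * (1 - C μ * X)) : K[X])) =
      sA μ s i * (LaurentPolynomial.C ε' * (T 1 - LaurentPolynomial.C μ)) +
      sB s i * (-LaurentPolynomial.C ε') * slm ξ₁ ξ₂ := by
    rw [I1]
    simp only [map_mul, map_sub, map_add, map_pow, map_one, toLaurent_C, toLaurent_X, inv_apply,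
      invert_C, invert_T, sB]
  have hβ : inv K (toLaurent (-(C s * C ε') : K[X])) = -(LaurentPolynomial.C s * LaurentPolynomial.C ε') := by
    simp only [map_mul, map_neg, toLaurent_C, inv_apply, invert_C]
  have hslm : toLaurent ((X - C ξ₁) * (X - C ξ₂) : K[X]) = slm ξ₁ ξ₂ := by
    simp only [map_mul, map_sub, toLaurent_C, toLaurent_X, slm]
  have ha1 : toLaurent (C ε' * (X - C μ) : K[X]) =
      LaurentPolynomial.C ε' * (T 1 - LaurentPolynomial.C μ) := by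
    simp only [map_mul, map_sub, toLaurent_C, toLaurent_X]
  have hb1 : toLaurent (-C ε' : K[X]) = -LaurentPolynomial.C ε' := by
    simp only [map_neg, toLaurent_C]
  have f1 : ∀ p q : K[X], toLaurent (p * q) = toLaurent p * toLaurent q := fun p q => map_mul _ p q
  have hCθ : toLaurent (C θ : K[X]) = LaurentPolynomial.C θ := toLaurent_C θ
  have hiθ : inv K (LaurentPolynomial.C θ : K[T;T⁻¹]) = LaurentPolynomial.C θ := by
    rw [inv_apply, invert_C]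
  have hCθ' : toLaurent (C θ' : K[X]) = LaurentPolynomial.C θ' := toLaurent_C θ'
  have hiθ' : inv K (LaurentPolynomial.C θ' : K[T;T⁻¹]) = LaurentPolynomial.C θ' := by
    rw [inv_apply, invert_C]
  have uθ' : IsUnit (C θ' : K[X]) := IsUnit.of_mul_eq_one (C θ) (by rw [mul_comm]; exact cθ)
  have hl' : inv K (toLaurent (1 - C ξ₁ * X : K[X])) = T (-1) * toLaurent (X - C ξ₁ : K[X]) := by
    simp only [map_mul, map_sub, map_one, toLaurent_C, toLaurent_X, inv_apply, invert_C, invert_T]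
    linear_combination (-1) * hxy
  have hm' : inv K (toLaurent (1 - C ξ₂ * X : K[X])) = T (-1) * toLaurent (X - C ξ₂ : K[X]) := by
    simp only [map_mul, map_sub, map_one, toLaurent_C, toLaurent_X, inv_apply, invert_C, invert_T]
    linear_combination (-1) * hxy
  have hLM : toLaurent (X - C ξ₁ : K[X]) * toLaurent (X - C ξ₂ : K[X]) = slm ξ₁ ξ₂ := by
    rw [← map_mul, hslm]
  rw [mapf (toLaurent : K[X] →+* K[T;T⁻¹]), ha1, hb1, hslm, map_mul, hCθ] at lV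
  rw [mapg (toLaurent : K[X] →+* K[T;T⁻¹]), ha1, hb1, hslm, map_mul, hCθ] at lT
  refine GIso.of_mor (1 : Kˣ)
    (tws (scl 1) (by rw [scl_one]; rfl) _ _ (C ε' * (X - C μ)) (-C ε') (C θ) (C θ') cθ N1 ?_ ?_ hV hT)
    (tws (scl (1 : Kˣ)⁻¹) (by rw [inv_one, scl_one]; rfl) _ _
      (C ε' * (C ε ^ 2 * ((C s * X + 1) * C i) + C s * (1 - C μ * X))) (-(C s * C ε')) (C θ) (C θ')
      cθ N2 ?_ ?_ ?_ ?_) ?_ ?_ ?_ ?_ ?_ ?_ ?_ ?_ ?_
  · change (C l0 + C 1 * X : K[X]) = X - C ξ₁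
    rw [cl0, map_one]; ring
  · change (C m0 + C m1 * X : K[X]) = C θ ^ 2 * (X - C ξ₂)
    rw [cm0, cm1]; ring
  · change (C 1 + C l0 * X : K[X]) = 1 - C ξ₁ * X
    rw [cl0, map_one]; ring
  · change (C m1 + C m0 * X : K[X]) = C θ ^ 2 * (1 - C ξ₂ * X)
    rw [cm0, cm1]; ring
  · apply Polynomial.toLaurent_injective
    apply (inv_bijective (R := K)).1
    change inv K (toLaurent V₂) = inv K (toLaurent ((C V3 + C V2 * X + C V1 * X ^ 2 + C V0 * X ^ 3) *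
      ((C ε' * (C ε ^ 2 * ((C s * X + 1) * C i) + C s * (1 - C μ * X))) ^ 2 +
        (1 - C ξ₁ * X) * (1 - C ξ₂ * X) * (-(C s * C ε')) ^ 2) +
      2 * (C ε' * (C ε ^ 2 * ((C s * X + 1) * C i) + C s * (1 - C μ * X))) * (-(C s * C ε')) *
        ((1 - C ξ₁ * X) * (1 - C ξ₂ * X)) * (C θ * (C T2' + C T1 * X + C T0 * X ^ 2))))
    rw [mapf (toLaurent : K[X] →+* K[T;T⁻¹]), mapf (inv K), hα, hβ, hlm, hPV, map_mul, map_mul, hPT, hCθ, hiθ, hV2, lV, lT,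
      h3, h2]
    generalize toLaurent (C V0 + C V1 * X + C V2 * X ^ 2 + C V3 * X ^ 3 : K[X]) = PV at *
    generalize toLaurent (C T0 + C T1 * X + C T2' * X ^ 2 : K[X]) = PT at *
    generalize sA μ s i = A at *
    generalize sB s i = B at *
    generalize slm ξ₁ ξ₂ = M at *
    generalize (LaurentPolynomial.C ε' * (T 1 - LaurentPolynomial.C μ) : K[T;T⁻¹]) = a at *
    generalize (T (-1) : K[T;T⁻¹]) = y at *
    generalize (LaurentPolynomial.C ε' : K[T;T⁻¹]) = e' at *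
    generalize (LaurentPolynomial.C s : K[T;T⁻¹]) = s at *
    generalize (LaurentPolynomial.C θ : K[T;T⁻¹]) = th at *
    linear_combination (y ^ 3 * (PV * M * ((A * (-e') + B * a) + (-(s * e')) * y) +
      2 * (A * a + B * (-e') * M) * M * (th * PT))) * I2
  · apply Polynomial.toLaurent_injective
    apply (inv_bijective (R := K)).1
    change inv K (toLaurent T₂) = inv K (toLaurent ((C θ * (C T2' + C T1 * X + C T0 * X ^ 2)) *
      ((C ε' * (C ε ^ 2 * ((C s * X + 1) * C i) + C s * (1 - C μ * X))) ^ 2 +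
        (1 - C ξ₁ * X) * (1 - C ξ₂ * X) * (-(C s * C ε')) ^ 2) +
      2 * (C ε' * (C ε ^ 2 * ((C s * X + 1) * C i) + C s * (1 - C μ * X))) * (-(C s * C ε')) *
        (C V3 + C V2 * X + C V1 * X ^ 2 + C V0 * X ^ 3)))
    rw [mapg (toLaurent : K[X] →+* K[T;T⁻¹]), mapg (inv K), hα, hβ, hlm, hPV, map_mul, map_mul, hPT, hCθ, hiθ, hT2, lV, lT,
      h3, h2]
    generalize toLaurent (C V0 + C V1 * X + C V2 * X ^ 2 + C V3 * X ^ 3 : K[X]) = PV at *
    generalize toLaurent (C T0 + C T1 * X + C T2' * X ^ 2 : K[X]) = PT at *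
    generalize sA μ s i = A at *
    generalize sB s i = B at *
    generalize slm ξ₁ ξ₂ = M at *
    generalize (LaurentPolynomial.C ε' * (T 1 - LaurentPolynomial.C μ) : K[T;T⁻¹]) = a at *
    generalize (T (-1) : K[T;T⁻¹]) = y at *
    generalize (LaurentPolynomial.C ε' : K[T;T⁻¹]) = e' at *
    generalize (LaurentPolynomial.C s : K[T;T⁻¹]) = s at *
    generalize (LaurentPolynomial.C θ : K[T;T⁻¹]) = th at *
    linear_combination (y ^ 2 * ((th * PT) * M * ((A * (-e') + B * a) + (-(s * e')) * y) +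
      2 * (A * a + B * (-e') * M) * PV)) * I2
  · rw [tws_c]; exact isUnit_one
  · rw [tws_x, tws_t, tws_y, tws_z]
    have h5 : (C ε' * (X - C μ)) * ((C ε' * (X - C μ)) * C θ') -
        -C ε' * (X - C ξ₁) * C θ' * (-C ε' * (X - C ξ₂)) = (C θ' : K[X]) := by
      linear_combination (C θ') * N1
    change IsUnit ((C ε' * (X - C μ)) * ((C ε' * (X - C μ)) * C θ') -
        -C ε' * (X - C ξ₁) * C θ' * (-C ε' * (X - C ξ₂)))
    rw [h5]
    exact uθ'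
  · rw [tws_c]; exact isUnit_one
  · rw [tws_x, tws_t, tws_y, tws_z]
    have h5 : (C ε' * (C ε ^ 2 * ((C s * X + 1) * C i) + C s * (1 - C μ * X))) *
        ((C ε' * (C ε ^ 2 * ((C s * X + 1) * C i) + C s * (1 - C μ * X))) * C θ') -
        -(C s * C ε') * (1 - C ξ₁ * X) * C θ' * (-(C s * C ε') * (1 - C ξ₂ * X)) = (C θ' : K[X]) := by
      linear_combination (C θ') * N2
    change IsUnit ((C ε' * (C ε ^ 2 * ((C s * X + 1) * C i) + C s * (1 - C μ * X))) *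
        ((C ε' * (C ε ^ 2 * ((C s * X + 1) * C i) + C s * (1 - C μ * X))) * C θ') -
        -(C s * C ε') * (1 - C ξ₁ * X) * C θ' * (-(C s * C ε') * (1 - C ξ₂ * X)))
    rw [h5]
    exact uθ'
  · rw [tws_c, tws_c, sclL_one, sgd_c]
    change _ = inv K (toLaurent 1) * T (-3)
    simp only [map_one]
    ring
  · rw [tws_x, tws_z, tws_x, tws_y, sclL_one, sclL_one, sgd_x, sgd_y, hα]
    change T (-2) * sA μ s i * toLaurent (C ε' * (X - C μ)) +
      T (-2) * sB s i * toLaurent (X - C ξ₁) * toLaurent (-C ε' * (X - C ξ₂)) =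
      (sA μ s i * (LaurentPolynomial.C ε' * (T 1 - LaurentPolynomial.C μ)) +
      sB s i * (-LaurentPolynomial.C ε') * slm ξ₁ ξ₂) * T (-2) + _ * 0
    rw [mul_zero, add_zero, f1 (-C ε') (X - C ξ₂), ha1, hb1, ← hLM]
    ring
  · rw [tws_y, tws_t, tws_x, tws_y, sclL_one, sclL_one, sgd_x, sgd_y]
    change T (-2) * sA μ s i * toLaurent (-C ε' * (X - C ξ₁) * C θ') +
      T (-2) * sB s i * toLaurent (X - C ξ₁) * toLaurent (C ε' * (X - C μ) * C θ') =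
      _ * 0 + inv K (toLaurent (-(C s * C ε') * (1 - C ξ₁ * X) * C θ')) * T (-2)
    rw [mul_zero, zero_add, f1 (-C ε' * (X - C ξ₁)) (C θ'), f1 (-C ε') (X - C ξ₁),
      f1 (C ε' * (X - C μ)) (C θ'), f1 (-(C s * C ε') * (1 - C ξ₁ * X)) (C θ'),
      f1 (-(C s * C ε')) (1 - C ξ₁ * X), map_mul (inv K), map_mul (inv K), ha1, hb1,
      hCθ', hiθ', hβ, hl']
    linear_combination (T (-2) * toLaurent (X - C ξ₁) * LaurentPolynomial.C θ') * I2
  · rw [tws_x, tws_z, tws_z, tws_t, sclL_one, sclL_one, sgd_z, sgd_t]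
    change T (-2) * sB s i * toLaurent (X - C ξ₂) * toLaurent (C ε' * (X - C μ)) +
      T (-2) * sA μ s i * toLaurent (-C ε' * (X - C ξ₂)) =
      inv K (toLaurent (-(C s * C ε') * (1 - C ξ₂ * X))) * T (-2) + _ * 0
    rw [mul_zero, add_zero, f1 (-C ε') (X - C ξ₂), f1 (-(C s * C ε')) (1 - C ξ₂ * X),
      map_mul (inv K), ha1, hb1, hβ, hm']
    linear_combination (T (-2) * toLaurent (X - C ξ₂)) * I2
  · rw [tws_y, tws_t, tws_z, tws_t, sclL_one, sclL_one, sgd_z, sgd_t]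
    change T (-2) * sB s i * toLaurent (X - C ξ₂) * toLaurent (-C ε' * (X - C ξ₁) * C θ') +
      T (-2) * sA μ s i * toLaurent (C ε' * (X - C μ) * C θ') =
      _ * 0 + inv K (toLaurent ((C ε' * (C ε ^ 2 * ((C s * X + 1) * C i) + C s * (1 - C μ * X))) * C θ')) * T (-2)
    rw [mul_zero, zero_add, f1 (-C ε' * (X - C ξ₁)) (C θ'), f1 (-C ε') (X - C ξ₁),
      f1 (C ε' * (X - C μ)) (C θ'),
      f1 (C ε' * (C ε ^ 2 * ((C s * X + 1) * C i) + C s * (1 - C μ * X))) (C θ'),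
      map_mul (inv K), ha1, hb1, hCθ', hiθ', hα, ← hLM]
    ring

theorem spc : S_spc := by
  intro K _ _ Q V T₁ V₂ T₂ P hσ hz hlam hk hε hVT h
  obtain ⟨σ, z, lam, k, w, e, plam, pk, pw, pe⟩ := P
  simp only at hσ hz hlam hk
  subst hσ hz hlam hk
  have hg := Q.hg
  have hl := Q.hlam
  have hkk := Q.hk
  simp only [hU, hn, one_pow, mul_one] at pw pe
  have hu : Q.u = 1 + Q.σ ^ 2 := rfl
  -- the scalars
  have hμd : Q.μ = 2 * Q.σ * (8 + 20 * (1 + Q.σ ^ 2) - (1 + Q.σ ^ 2) ^ 2) * Q.g := rfl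
  have hεd : Q.ε = 2 * Q.σ * Q.k * Q.g := rfl
  have hξ1 : Q.ξ₁ = Q.μ + Q.ε := rfl
  have hξ2 : Q.ξ₂ = Q.μ - Q.ε := rfl
  set θ : K := Q.lam * (Q.σ ^ 2 + 1 + 8) * w with hθd
  have hl0 : Q.lam ≠ 0 := by
    intro h0
    rw [h0] at hg
    simp at hg
  have h90 : (9 + Q.σ ^ 2) ≠ 0 := by
    intro h0
    rw [h0] at hg
    simp at hg
  have hw0 : w ≠ 0 := by
    intro h0
    rw [h0] at pw
    simp at pw
  have hθ0 : θ ≠ 0 := by
    rw [hθd]
    refine mul_ne_zero (mul_ne_zero hl0 ?_) hw0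
    intro h0
    apply h90
    linear_combination h0
  have hεε : Q.ε * (Q.ε)⁻¹ = 1 := mul_inv_cancel₀ hε
  have hθθ : θ * θ⁻¹ = 1 := mul_inv_cancel₀ hθ0
  have hn' : (8 + 20 * (1 + Q.σ ^ 2) - (1 + Q.σ ^ 2) ^ 2 - Q.k) *
      (8 + 20 * (1 + Q.σ ^ 2) - (1 + Q.σ ^ 2) ^ 2 + Q.k) =
      2 * (1 + Q.σ ^ 2) * (9 + Q.σ ^ 2) ^ 3 := by
    linear_combination -hkk
  -- the polynomials
  have key : C w * C (Q.ε)⁻¹ ^ 2 * C ((Q.u ^ 2 + 8) * Q.ε ^ 2) = (1 : K[X]) := by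
    rw [← map_pow, ← map_mul, ← map_mul]
    have h1 : w * (Q.ε)⁻¹ ^ 2 * ((Q.u ^ 2 + 8) * Q.ε ^ 2) = 1 := by
      rw [hu]
      linear_combination (Q.ε * (Q.ε)⁻¹) ^ 2 * pw + (Q.ε * (Q.ε)⁻¹ + 1) * hεε
    rw [h1, map_one]
  have c2 : (C 2 : K[X]) = 2 := map_ofNat C 2
  have hPV : (C ((8 * 1 ^ 12 - 16 * hU Q.σ 1 * 1 ^ 6 - hU Q.σ 1 ^ 2) * w) +
      C (24 * Q.σ * Q.lam ^ 2 * 1 ^ 5 * w) * X + C (-18 * Q.lam ^ 4 * 1 ^ 4 * w) * X ^ 2 +
      C (4 * Q.σ * 1 ^ 3 * (hU Q.σ 1 + 2 * 1 ^ 6) * w) * X ^ 3 : K[X]) = C w * Q.At := by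
    have e1 : (8 * 1 ^ 12 - 16 * hU Q.σ 1 * 1 ^ 6 - hU Q.σ 1 ^ 2) * w = w * (8 - 16 * Q.u - Q.u ^ 2) := by
      rw [hu, hU]; ring
    have e2 : 24 * Q.σ * Q.lam ^ 2 * 1 ^ 5 * w = w * (24 * Q.σ * Q.lam ^ 2) := by ring
    have e3 : -18 * Q.lam ^ 4 * 1 ^ 4 * w = -(w * (18 * Q.lam ^ 4)) := by ring
    have e4 : 4 * Q.σ * 1 ^ 3 * (hU Q.σ 1 + 2 * 1 ^ 6) * w = w * (4 * Q.σ * (Q.u + 2)) := by
      rw [hu, hU]; ring
    rw [e1, e2, e3, e4, SPar.At, map_neg, map_mul C w, map_mul C w, map_mul C w, map_mul C w]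
    ring
  have hPT : C θ * (C (2 * Q.lam * 1 ^ 2) + C (-2 * Q.σ * 1) * X + C (Q.lam ^ 2) * X ^ 2 : K[X]) =
      C w * Q.Qt := by
    have e1 : θ = w * (Q.lam * (Q.u + 8)) := by rw [hθd, hu]; ring
    have e2 : 2 * Q.lam * 1 ^ 2 = 2 * Q.lam := by ring
    have e3 : -2 * Q.σ * 1 = -(2 * Q.σ) := by ring
    rw [e1, e2, e3, SPar.Qt, map_neg, map_mul C w]
    ring
  refine giso_of Q.ξ₁ Q.ξ₂ Q.μ Q.s Q.i Q.ε (Q.ε)⁻¹ θ θ⁻¹ V T₁ V₂ T₂ Q.hμ Q.hξ Q.hi' h.hV h.hT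
    _ _ _ _ _ _ _ _ _ _ hεε hθθ ?_ ?_ ?_ ?_ ?_ ?_
  · have := Q.hξ
    rw [hξ1, hξ2] at this
    linear_combination -this
  · simp only [hU, one_pow, mul_one]
    rw [hξ1, hμd, hεd]
    linear_combination (-(2 * Q.σ * (8 + 20 * (1 + Q.σ ^ 2) - (1 + Q.σ ^ 2) ^ 2 + Q.k) * Q.g)) * pe +
      (2 * Q.σ * Q.g * e) * hn' - (4 * Q.σ * Q.g * e * (9 + Q.σ ^ 2) ^ 3) * hl +
      (4 * Q.σ * e * Q.lam * (9 + Q.σ ^ 2)) * hg
  · simp only [hU, one_pow, mul_one]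
    rw [hθd]
    ring
  · simp only [hU, hn, one_pow, mul_one]
    rw [hθd, hξ2, hμd, hεd]
    linear_combination (2 * Q.σ * (8 + 20 * (1 + Q.σ ^ 2) - (1 + Q.σ ^ 2) ^ 2 - Q.k) * w ^ 2) * hg
  · rw [hPV, hPT]
    calc V = (C w * C (Q.ε)⁻¹ ^ 2 * C ((Q.u ^ 2 + 8) * Q.ε ^ 2)) * V := by rw [key, one_mul]
      _ = C w * C (Q.ε)⁻¹ ^ 2 * (Q.At * (Q.mm ^ 2 + Q.ll) - 2 * Q.mm * Q.ll * Q.Qt) := by
        rw [mul_assoc, hVT.hV]
      _ = _ := by
        rw [SPar.mm, SPar.ll]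
        ring
  · rw [hPV, hPT]
    calc T₁ = (C w * C (Q.ε)⁻¹ ^ 2 * C ((Q.u ^ 2 + 8) * Q.ε ^ 2)) * T₁ := by rw [key, one_mul]
      _ = C w * C (Q.ε)⁻¹ ^ 2 * (Q.Qt * (Q.mm ^ 2 + Q.ll) - 2 * Q.mm * Q.At) := by
        rw [mul_assoc, hVT.hT]
      _ = _ := by
        rw [SPar.mm, SPar.ll]
        ring

end Pool.Agent.H671.MG927
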